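import Pool.Agent.Helper27_PV3.Ub
import Pool.Agent.Helper10_PV3.Lb

/-!
Squad PV3, module DER: outward first variation of the volume.
-/

set_option autoImplicit false

open MeasureTheory Metric Set Filter Topology Pointwise

namespace PV3.H27

open PV PV3

/-- The lower bound. -/
theorem lower (h1 : ARStmt) (h2 : ANStmt) {n : ℕ} {U : Finset (E n)} (hU : Un U) (hb : Bd U)
    (c d : E n → ℝ) (hF : Full (Pl U c)) (hd : ∀ w ∈ U, 0 ≤ d w) {e : ℝ} (he : 0 < e) :
    ∀ᶠ t : ℝ in 𝓝[>] 0, vl (Pl U c) + t * (∑ w ∈ U, fa U c w * d w - e) ≤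
      vl (Pl U fun w => c w + t * d w) := by
  have hin : ∀ w ∈ U, inner ℝ (d w • w) w = d w := by
    intro w hw
    rw [inner_smul_left, real_inner_self_eq_norm_sq, hU w hw]
    simp
  have hq : ∀ w ∈ U, 0 ≤ inner ℝ (d w • w) w := by
    intro w hw
    rw [hin w hw]
    exact hd w hw
  obtain ⟨ε, hε, hev⟩ := H10.lb h1 h2 U c hU hb hF (fun w => d w • w) hq e he
  have hsum : ∑ w ∈ U, fa U c w * inner ℝ (d w • w) w = ∑ w ∈ U, fa U c w * d w :=
    Finset.sum_congr rfl fun w hw => by rw [hin w hw]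
  rw [hsum] at hev
  have hsm : ∀ᶠ t : ℝ in 𝓝[>] 0, ∀ w ∈ U, t * d w < ε := by
    rw [Filter.eventually_all_finset]
    intro w hw
    have hc : Tendsto (fun t : ℝ => t * d w) (𝓝[>] 0) (𝓝 (0 * d w)) :=
      (tendsto_id.mono_left nhdsWithin_le_nhds).mul_const _
    rw [zero_mul] at hc
    exact hc.eventually (gt_mem_nhds hε)
  filter_upwards [hev, hsm, self_mem_nhdsWithin] with t ht hts ht0
  have ht0' : (0 : ℝ) < t := ht0
  refine ht _ (H21.pl_isCompact hb _).measure_lt_top.ne ?_ ?_
  · intro x hx w hw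
    have h3 : inner ℝ x w ≤ c w := hx w hw
    have h4 : 0 ≤ t * d w := mul_nonneg ht0'.le (hd w hw)
    show inner ℝ x w ≤ c w + t * d w
    linarith
  · rintro w hw x ⟨hx1, hx2, hx3⟩ s ⟨hs0, hs1⟩ v hv
    show inner ℝ (x + s • d w • w) v ≤ c v + t * d v
    rw [inner_add_left, inner_smul_left, inner_smul_left]
    simp only [conj_trivial]
    by_cases hvw : v = w
    · subst hvw
      rw [hx2, real_inner_self_eq_norm_sq, hU v hv]
      have h5 : s * d v ≤ t * d v := mul_le_mul_of_nonneg_right hs1 (hd v hv)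
      linarith
    · have h6 : inner ℝ x v ≤ c v - ε := hx3 v hv hvw
      have h7 : inner ℝ w v ≤ (1 : ℝ) := by
        have := real_inner_le_norm w v
        rw [hU w hw, hU v hv, mul_one] at this
        exact this
      have h8 : s * (d w * inner ℝ w v) ≤ t * d w := by
        calc s * (d w * inner ℝ w v) ≤ s * (d w * 1) := by
              refine mul_le_mul_of_nonneg_left ?_ hs0
              exact mul_le_mul_of_nonneg_left h7 (hd w hw)
          _ = s * d w := by ring
          _ ≤ t * d w := mul_le_mul_of_nonneg_right hs1 (hd w hw)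
      have h9 := hts w hw
      have h10 : 0 ≤ t * d v := mul_nonneg ht0'.le (hd v hv)
      linarith

/-- DER. -/
theorem der (h1 : ARStmt) (h2 : ANStmt) : DERStmt := by
  intro n U c d hU hb hF hd
  exact der_of c d (fun e he => ub h1 hU hb c d hd he)
    (fun e he => lower h1 h2 hU hb c d hF hd he)

end PV3.H27
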