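import Pool.Agent.PV3.Stmts

/-!
Squad PV3, module LIM: the limit of the second differences.
-/

set_option autoImplicit false

open MeasureTheory Metric Set Filter Topology Pointwise

namespace PV3.H27

open PV PV3 PV.KC

/-- The second difference of the support function of a planar slice. -/
theorem T_lim {S : Set (ℝ × ℝ)} (hS : IsCompact S) (hc : Convex ℝ S) (hne : S.Nonempty)
    (τ : ℕ → ℝ) (hpos : ∀ j, 0 < τ j) (hτ : Tendsto τ atTop (𝓝 0)) :
    Tendsto (fun j => (T S (τ j) + T S (-τ j) - 2 * T S 0) / τ j) atTop (𝓝 (lt S)) := by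
  obtain ⟨p, hp, h3, h4⟩ := T_exists hS hne 0
  have hp0 : (p.1, T S 0) ∈ S := by
    rw [← h3]; simpa using hp
  obtain ⟨R, hR⟩ : ∃ R : ℝ, ∀ q ∈ S, |q.1| ≤ R := by
    obtain ⟨R, hR⟩ := hS.isBounded.exists_norm_le
    exact ⟨R, fun q hq => (norm_fst_le q).trans (hR q hq)⟩
  have hR0 : 0 ≤ R := (abs_nonneg _).trans (hR p hp)
  -- the top face
  obtain ⟨F, hF⟩ : ∃ F : Set ℝ, F = {s : ℝ | (s, T S 0) ∈ S} := ⟨_, rfl⟩
  have hFim : F = Prod.fst '' (S ∩ {q : ℝ × ℝ | q.2 = T S 0}) := by
    rw [hF]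
    ext s
    constructor
    · intro hs
      exact ⟨(s, T S 0), ⟨hs, rfl⟩, rfl⟩
    · rintro ⟨q, ⟨hq, hq2⟩, rfl⟩
      have hq3 : q.2 = T S 0 := hq2
      show (q.1, T S 0) ∈ S
      rw [← hq3]
      exact hq
  have hFc : IsCompact F := by
    rw [hFim]
    exact (hS.inter_right (isClosed_eq continuous_snd continuous_const)).image continuous_fst
  have hFne : F.Nonempty := by
    rw [hF]
    exact ⟨p.1, hp0⟩
  obtain ⟨a, b, ha, hb, hab, hFI⟩ : ∃ a b : ℝ, a ∈ F ∧ b ∈ F ∧ a ≤ b ∧ F = Icc a b := by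
    refine ⟨sInf F, sSup F, hFc.sInf_mem hFne, hFc.sSup_mem hFne,
      csInf_le_csSup hFne hFc.bddBelow hFc.bddAbove, ?_⟩
    apply Subset.antisymm
    · intro s hs
      exact ⟨csInf_le hFc.bddBelow hs, le_csSup hFc.bddAbove hs⟩
    · have hconv : Convex ℝ F := by
        rw [hF]
        intro s hs s' hs' x y hx hy hxy
        have h5 := hc hs hs' hx hy hxy
        have h6 : x • ((s, T S 0) : ℝ × ℝ) + y • ((s', T S 0) : ℝ × ℝ) =
            (x • s + y • s', T S 0) := by
          ext
          · simp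
          · simp only [Prod.smul_mk, Prod.mk_add_mk, smul_eq_mul]
            rw [← add_mul, hxy, one_mul]
        show (x • s + y • s', T S 0) ∈ S
        rw [← h6]
        exact h5
      exact (hconv.ordConnected).out (hFc.sInf_mem hFne) (hFc.sSup_mem hFne)
  have hlt : lt S = b - a := by
    unfold lt
    rw [← hF, hFI, Real.volume_Icc, ENNReal.toReal_ofReal (by linarith)]
  have haS : (a, T S 0) ∈ S := by
    have := ha
    rw [hF] at this
    exact this
  have hbS : (b, T S 0) ∈ S := by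
    have := hb
    rw [hF] at this
    exact this
  rw [hlt, Metric.tendsto_atTop]
  intro e he
  -- the part of S away from the top face
  obtain ⟨Se, hSe⟩ : ∃ Se : Set (ℝ × ℝ), Se = S ∩ {q | q.1 ≤ a - e / 4 ∨ b + e / 4 ≤ q.1} :=
    ⟨_, rfl⟩
  have hSec : IsCompact Se := by
    rw [hSe]
    refine hS.inter_right ?_
    exact (isClosed_le continuous_fst continuous_const).union
      (isClosed_le continuous_const continuous_fst)
  obtain ⟨d, hd, hSd⟩ : ∃ d : ℝ, 0 < d ∧ ∀ q ∈ Se, q.2 ≤ T S 0 - d := by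
    by_cases hem : Se.Nonempty
    · obtain ⟨q, hq, hq2⟩ := hSec.exists_isMaxOn hem (f := fun q : ℝ × ℝ => q.2)
        continuous_snd.continuousOn
      have hqS : q ∈ S := by rw [hSe] at hq; exact hq.1
      have hqe : q.1 ≤ a - e / 4 ∨ b + e / 4 ≤ q.1 := by rw [hSe] at hq; exact hq.2
      have hlt : q.2 < T S 0 := by
        refine lt_of_le_of_ne ?_ ?_
        · have := h4 q hqS; simpa using this
        · intro heq
          have h7 : q.1 ∈ F := by
            rw [hF]
            show (q.1, T S 0) ∈ S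
            rw [← heq]
            exact hqS
          rw [hFI] at h7
          rcases hqe with h8 | h8
          · linarith [h7.1]
          · linarith [h7.2]
      refine ⟨T S 0 - q.2, by linarith, fun q' hq' => ?_⟩
      have h9 : q'.2 ≤ q.2 := hq2 hq'
      linarith
    · refine ⟨1, one_pos, fun q hq => absurd ⟨q, hq⟩ hem⟩
  have hnear : ∀ t : ℝ, 2 * R * |t| < d → ∀ q ∈ S, q.2 - t * q.1 = T S t →
      a - e / 4 < q.1 ∧ q.1 < b + e / 4 := by
    intro t ht q hq hqt
    by_contra hcon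
    have hqSe : q ∈ Se := by
      rw [hSe]
      refine ⟨hq, ?_⟩
      by_contra hcon2
      apply hcon
      simp only [Set.mem_ofPred_eq, not_or, not_le] at hcon2
      exact hcon2
    have h5 := hSd q hqSe
    have h6 := le_T hS t hp
    have h7 : p.2 = T S 0 := by rw [← h3]; ring
    have c1 : |t * q.1| ≤ R * |t| := by
      rw [abs_mul, mul_comm]; exact mul_le_mul_of_nonneg_right (hR q hq) (abs_nonneg _)
    have c2 : |t * p.1| ≤ R * |t| := by
      rw [abs_mul, mul_comm]; exact mul_le_mul_of_nonneg_right (hR p hp) (abs_nonneg _)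
    rw [abs_le] at c1 c2
    nlinarith
  have hev : ∀ᶠ j in atTop, 2 * R * |τ j| < d := by
    have : Tendsto (fun j => 2 * R * |τ j|) atTop (𝓝 (2 * R * |(0 : ℝ)|)) :=
      (hτ.abs).const_mul _
    simp only [abs_zero, mul_zero] at this
    exact this.eventually (gt_mem_nhds hd)
  obtain ⟨N, hN⟩ := eventually_atTop.1 hev
  refine ⟨N, fun j hj => ?_⟩
  have htj := hpos j
  have hj' := hN j hj
  obtain ⟨q, hq, hq1, _⟩ := T_exists hS hne (τ j)
  obtain ⟨q', hq', hq1', _⟩ := T_exists hS hne (-τ j)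
  have n1 := hnear (τ j) hj' q hq hq1
  have n2 := hnear (-τ j) (by rwa [abs_neg]) q' hq' hq1'
  have n3 := T_second_ge hS (τ j) haS hbS rfl
  have m1 := le_T hS 0 hq
  have m2 := le_T hS 0 hq'
  have hle : T S (τ j) + T S (-τ j) - 2 * T S 0 ≤ τ j * (q'.1 - q.1) := by
    rw [← hq1, ← hq1']
    nlinarith
  have habs : q'.1 - q.1 < b - a + e / 2 := by linarith [n1.1, n2.2]
  rw [Real.dist_eq, abs_lt]
  constructor
  · have : b - a ≤ (T S (τ j) + T S (-τ j) - 2 * T S 0) / τ j := by
      rw [le_div_iff₀ htj]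
      calc (b - a) * τ j = τ j * (b - a) := mul_comm _ _
        _ ≤ _ := n3
    linarith
  · have : (T S (τ j) + T S (-τ j) - 2 * T S 0) / τ j ≤ b - a + e / 2 := by
      rw [div_le_iff₀ htj]
      calc T S (τ j) + T S (-τ j) - 2 * T S 0 ≤ τ j * (q'.1 - q.1) := hle
        _ ≤ τ j * (b - a + e / 2) := mul_le_mul_of_nonneg_left habs.le htj.le
        _ = (b - a + e / 2) * τ j := mul_comm _ _
    linarith

theorem refl_convex {S : Set (ℝ × ℝ)} (hc : Convex ℝ S) : Convex ℝ (refl S) := by
  intro q hq q' hq' x y hx hy hxy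
  have h1 : (q.1, -q.2) ∈ S := hq
  have h2 : (q'.1, -q'.2) ∈ S := hq'
  have h3 := hc h1 h2 hx hy hxy
  have h4 : x • ((q.1, -q.2) : ℝ × ℝ) + y • ((q'.1, -q'.2) : ℝ × ℝ) =
      ((x • q + y • q').1, -(x • q + y • q').2) := by
    ext
    · simp
    · simp only [Prod.smul_mk, Prod.mk_add_mk, smul_eq_mul, Prod.snd_add, Prod.smul_snd]
      ring
  show ((x • q + y • q').1, -(x • q + y • q').2) ∈ S
  rw [← h4]
  exact h3

theorem lt_empty {S : Set (ℝ × ℝ)} (h : ¬ S.Nonempty) : lt S = 0 := by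
  have h1 : {s : ℝ | (s, T S 0) ∈ S} = ∅ := by
    ext s
    simp only [mem_empty_iff_false, iff_false]
    intro hs
    exact h ⟨_, hs⟩
  unfold lt
  rw [h1]
  simp

/-- The pointwise limit. -/
theorem q_lim {n : ℕ} {X : Set (ℝ × ℝ × E n)} (hX : IsCompact X) (hXc : Convex ℝ X)
    (f : (ℝ × E n) →L[ℝ] ℝ) (k : ℝ) (τ : ℕ → ℝ) (hτ0 : ∀ j, 0 < τ j)
    (hτ : Tendsto τ atTop (𝓝 0)) (z : E n) :
    Tendsto (fun j => q X f k (τ j) z / τ j) atTop
      (𝓝 (lt (slice X z) * (f (T (slice X z) 0, z) + k) +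
        lt (refl (slice X z)) * (f (B (slice X z) 0, z) + k))) := by
  by_cases hne : (slice X z).Nonempty
  · have hS := slice_compact hX z
    have hSc := slice_convex hXc z
    obtain ⟨R, hR⟩ : ∃ R : ℝ, ∀ q ∈ slice X z, |q.1| ≤ R := by
      obtain ⟨R, hR⟩ := hS.isBounded.exists_norm_le
      exact ⟨R, fun q hq => (norm_fst_le q).trans (hR q hq)⟩
    have hT := T_lim hS hSc hne τ hτ0 hτ
    have hB := T_lim (refl_compact hS) (refl_convex hSc) (refl_nonempty hne) τ hτ0 hτ
    have hsqlim : ∀ x : ℕ → ℝ, (∀ j, |x j| ≤ R * |τ j|) →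
        Tendsto (fun j => x j ^ 2 / τ j) atTop (𝓝 0) := by
      intro x hx
      have hup : Tendsto (fun j => R ^ 2 * τ j) atTop (𝓝 0) := by
        simpa using hτ.const_mul (R ^ 2)
      refine squeeze_zero (fun j => div_nonneg (sq_nonneg _) (hτ0 j).le) (fun j => ?_) hup
      rw [div_le_iff₀ (hτ0 j)]
      have := sq_bound (hx j)
      nlinarith
    have l1 := hsqlim (fun j => T (slice X z) (τ j) - T (slice X z) 0)
      (fun j => T_sub_le hS hne hR (τ j))
    have l2 := hsqlim (fun j => T (slice X z) (-τ j) - T (slice X z) 0)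
      (fun j => by simpa [abs_neg] using T_sub_le hS hne hR (-τ j))
    have l3 := hsqlim (fun j => B (slice X z) (τ j) - B (slice X z) 0)
      (fun j => B_sub_le hS hne hR (τ j))
    have l4 := hsqlim (fun j => B (slice X z) (-τ j) - B (slice X z) 0)
      (fun j => by simpa [abs_neg] using B_sub_le hS hne hR (-τ j))
    have l5 := (((l1.add l2).sub l3).sub l4).const_mul (f (1, 0) / 2)
    have l6 := hT.const_mul (f (T (slice X z) 0, z) + k)
    have l7 := hB.const_mul (f (B (slice X z) 0, z) + k)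
    have l8 := (l6.add l7).add l5
    simp only [add_zero, sub_zero, mul_zero] at l8
    have hval : (f (T (slice X z) 0, z) + k) * lt (slice X z) +
        (f (B (slice X z) 0, z) + k) * lt (refl (slice X z)) =
        lt (slice X z) * (f (T (slice X z) 0, z) + k) +
        lt (refl (slice X z)) * (f (B (slice X z) 0, z) + k) := by ring
    rw [hval] at l8
    refine l8.congr (fun j => ?_)
    rw [second_eq hX hXc f k (τ j) z hne]
    have hB : B (slice X z) (τ j) + B (slice X z) (-τ j) - 2 * B (slice X z) 0 =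
        -(T (refl (slice X z)) (τ j) + T (refl (slice X z)) (-τ j) -
        2 * T (refl (slice X z)) 0) := by
      unfold B
      rw [neg_zero, neg_neg]
      ring
    rw [hB]
    ring
  · have hne' : ¬ (refl (slice X z)).Nonempty := by
      rintro ⟨p, hp⟩
      exact hne ⟨_, hp⟩
    rw [lt_empty hne, lt_empty hne', zero_mul, zero_mul, add_zero]
    have : ∀ j, q X f k (τ j) z = 0 := fun j => q_empty f k (τ j) z hne
    simp only [this, zero_div]
    exact tendsto_const_nhds

/-- LIM. -/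
theorem lim : LIMStmt := by
  intro n X hX hXc f k τ hτ0 hτ
  obtain ⟨R, hR0, hR⟩ : ∃ R : ℝ, 0 ≤ R ∧ ∀ p ∈ X, |p.1| ≤ R := by
    obtain ⟨R1, hR1⟩ := hX.isBounded.exists_norm_le
    refine ⟨max 0 R1, le_max_left _ _, fun p hp => ?_⟩
    exact ((norm_fst_le p).trans (hR1 p hp)).trans (le_max_right _ _)
  obtain ⟨L, hL⟩ : ∃ L : ℝ, ∀ p ∈ shadow 0 X, |f p + k| ≤ L := by
    obtain ⟨L, hL⟩ := ((shadow_compact hX 0).image_of_continuousOn
      (f := fun p : ℝ × E n => f p + k) (by fun_prop)).isBounded.exists_norm_le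
    exact ⟨L, fun p hp => hL _ ⟨p, hp, rfl⟩⟩
  obtain ⟨CZ, hCZ⟩ : ∃ CZ : Set (E n), CZ = (fun p : ℝ × ℝ × E n => p.2.2) '' X := ⟨_, rfl⟩
  have hCZc : IsCompact CZ := by rw [hCZ]; exact hX.image (by fun_prop)
  have hqint : ∀ t : ℝ, Integrable (q X f k t) (volume : Measure (E n)) ∧
      ∫ z, q X f k t z =
        (∫ p in shadow t X, (f p + k) ∂((volume : Measure ℝ).prod (volume : Measure (E n)))) +
        (∫ p in shadow (-t) X, (f p + k) ∂((volume : Measure ℝ).prod (volume : Measure (E n)))) -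
        2 * (∫ p in shadow 0 X,
          (f p + k) ∂((volume : Measure ℝ).prod (volume : Measure (E n)))) := by
    intro t
    obtain ⟨a1, b1⟩ := G_eq (volume : Measure (E n)) hX f k t
    obtain ⟨a2, b2⟩ := G_eq (volume : Measure (E n)) hX f k (-t)
    obtain ⟨a3, b3⟩ := G_eq (volume : Measure (E n)) hX f k 0
    refine ⟨(b1.add b2).sub (b3.const_mul 2), ?_⟩
    rw [a1, a2, a3]
    unfold q
    have e1 : ∫ z, (g X f k t z + g X f k (-t) z - 2 * g X f k 0 z) =
        (∫ z, (g X f k t z + g X f k (-t) z)) - ∫ z, 2 * g X f k 0 z :=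
      integral_sub (b1.add b2) (b3.const_mul 2)
    rw [e1, integral_add b1 b2, integral_const_mul]
  have hmain : Tendsto (fun j => ∫ z, q X f k (τ j) z / τ j) atTop
      (𝓝 (∫ z : E n, (lt (slice X z) * (f (T (slice X z) 0, z) + k) +
        lt (refl (slice X z)) * (f (B (slice X z) 0, z) + k)))) := by
    refine tendsto_integral_filter_of_dominated_convergence
      (CZ.indicator (fun _ => 4 * L * R + 2 * |f (1, 0)| * R ^ 2)) ?_ ?_ ?_ ?_
    · exact Filter.Eventually.of_forall fun j =>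
        ((hqint (τ j)).1.div_const (τ j)).aestronglyMeasurable
    · have h1 : ∀ᶠ j in atTop, τ j < 1 := hτ.eventually (gt_mem_nhds one_pos)
      filter_upwards [h1] with j hj
      refine Filter.Eventually.of_forall (fun z => ?_)
      rw [Real.norm_eq_abs]
      by_cases hne : (slice X z).Nonempty
      · have hz : z ∈ CZ := by
          obtain ⟨p, hp⟩ := hne
          rw [hCZ]
          exact ⟨(p.1, p.2, z), hp, rfl⟩
        rw [indicator_of_mem hz]
        exact second_abs hX hXc f k (τ j) hR hR0 hL z hne (hτ0 j) hj.le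
      · have hz : z ∉ CZ := by
          rw [hCZ]
          rintro ⟨p, hp, rfl⟩
          exact hne ⟨(p.1, p.2.1), hp⟩
        rw [indicator_of_notMem hz, q_empty f k (τ j) z hne]
        simp
    · rw [integrable_indicator_iff hCZc.measurableSet]
      exact integrableOn_const hCZc.measure_lt_top.ne
    · exact Filter.Eventually.of_forall (fun z => q_lim hX hXc f k τ hτ0 hτ z)
  refine hmain.congr (fun j => ?_)
  rw [integral_div, (hqint (τ j)).2]

end PV3.H27
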