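import Pool.Agent.Helper21_PV3.Inn

/-!
Squad PV3, module DER, upper bound: outward first variation of the volume.
-/

set_option autoImplicit false

open MeasureTheory Metric Set Filter Topology Pointwise

namespace PV3.H27

open PV PV3

/-- The slab above the face. -/
def Su {n : ℕ} (U : Finset (E n)) (c d : E n → ℝ) (w : E n) (t : ℝ) : Set (E n) :=
  {x | x ∈ (Pl U fun w => c w + t * d w) ∧ c w ≤ inner ℝ x w}

theorem su_isCompact {n : ℕ} {U : Finset (E n)} (hb : Bd U) (c d : E n → ℝ) (w : E n) (t : ℝ) :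
    IsCompact (Su U c d w t) := by
  have h : Su U c d w t = (Pl U fun w => c w + t * d w) ∩ {x : E n | c w ≤ inner ℝ x w} := rfl
  rw [h]
  exact (H21.pl_isCompact hb _).inter_right
    (isClosed_le continuous_const (continuous_id.inner continuous_const))

theorem pl_mono {n : ℕ} (U : Finset (E n)) (c d : E n → ℝ) (hd : ∀ w ∈ U, 0 ≤ d w) {t s : ℝ}
    (h : t ≤ s) : (Pl U fun w => c w + t * d w) ⊆ (Pl U fun w => c w + s * d w) := by
  intro x hx w hw
  have h1 : inner ℝ x w ≤ c w + t * d w := hx w hw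
  have h2 := mul_le_mul_of_nonneg_right h (hd w hw)
  show inner ℝ x w ≤ c w + s * d w
  linarith

theorem su_mono {n : ℕ} (U : Finset (E n)) (c d : E n → ℝ) (w : E n) (hd : ∀ w ∈ U, 0 ≤ d w)
    {t s : ℝ} (h : t ≤ s) : Su U c d w t ⊆ Su U c d w s := by
  rintro x ⟨h1, h2⟩
  exact ⟨pl_mono U c d hd h h1, h2⟩

theorem su_inter {n : ℕ} (U : Finset (E n)) (c d : E n → ℝ) (w : E n) (hw : w ∈ U)
    (hd : ∀ w ∈ U, 0 ≤ d w) : (⋂ j : ℕ, Su U c d w (1 / ((j : ℝ) + 1))) = Fc U c w := by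
  ext x
  simp only [mem_iInter, Su, mem_setOf_eq, Fc]
  constructor
  · intro h
    have hx : x ∈ Pl U c := by
      intro v hv
      have ht : Tendsto (fun j : ℕ => c v + 1 / ((j : ℝ) + 1) * d v) atTop
          (𝓝 (c v + 0 * d v)) :=
        tendsto_const_nhds.add ((tendsto_one_div_add_atTop_nhds_zero_nat (𝕜 := ℝ)).mul_const _)
      have h2 := ge_of_tendsto' ht fun j => (h j).1 v hv
      simpa using h2
    exact ⟨hx, le_antisymm (hx w hw) (h 0).2⟩
  · rintro ⟨h1, h2⟩ j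
    refine ⟨fun v hv => ?_, h2.ge⟩
    have h3 : inner ℝ x v ≤ c v := h1 v hv
    have h4 : (0 : ℝ) ≤ 1 / ((j : ℝ) + 1) * d v := mul_nonneg (by positivity) (hd v hv)
    show inner ℝ x v ≤ c v + 1 / ((j : ℝ) + 1) * d v
    linarith

/-- The area of the slabs tends to the area of the face. -/
theorem ar_ev (hAR : ARStmt) {n : ℕ} {U : Finset (E n)} (hU : Un U) (hb : Bd U)
    (c d : E n → ℝ) (hd : ∀ w ∈ U, 0 ≤ d w) {w : E n} (hw : w ∈ U) {e : ℝ} (he : 0 < e) :
    ∀ᶠ t : ℝ in 𝓝[>] 0, ar w (Su U c d w t) ≤ fa U c w + e := by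
  obtain ⟨_, _, hm, hlim⟩ := hAR n w (hU w hw)
  have h1 := hlim (fun j : ℕ => Su U c d w (1 / ((j : ℝ) + 1)))
    (fun j => su_isCompact hb c d w _)
    (fun i j hij => su_mono U c d w hd (by
      apply one_div_le_one_div_of_le
      · positivity
      · have : (i : ℝ) ≤ j := by exact_mod_cast hij
        linarith))
  rw [su_inter U c d w hw hd] at h1
  have h2 : ∀ᶠ j : ℕ in atTop, ar w (Su U c d w (1 / ((j : ℝ) + 1))) < fa U c w + e :=
    h1.eventually_lt_const (by unfold fa; linarith)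
  obtain ⟨j, hj⟩ := h2.exists
  have h3 : ∀ᶠ t : ℝ in 𝓝[>] 0, t < 1 / ((j : ℝ) + 1) := by
    apply mem_nhdsWithin_of_mem_nhds
    exact Iio_mem_nhds (by positivity)
  filter_upwards [h3] with t ht
  exact le_trans (hm _ _ (su_isCompact hb c d w _) (su_mono U c d w hd ht.le)) hj.le

/-- The upper bound. -/
theorem ub (hAR : ARStmt) {n : ℕ} {U : Finset (E n)} (hU : Un U) (hb : Bd U)
    (c d : E n → ℝ) (hd : ∀ w ∈ U, 0 ≤ d w) {e : ℝ} (he : 0 < e) :
    ∀ᶠ t : ℝ in 𝓝[>] 0, vl (Pl U fun w => c w + t * d w) - vl (Pl U c) ≤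
      t * (∑ w ∈ U, fa U c w * d w + e) := by
  set D : ℝ := ∑ w ∈ U, d w with hD
  have hD0 : 0 ≤ D := Finset.sum_nonneg hd
  set e' : ℝ := e / (D + 1) with he'
  have he'0 : 0 < e' := by positivity
  have h1 : ∀ᶠ t : ℝ in 𝓝[>] 0, ∀ w ∈ U, ar w (Su U c d w t) ≤ fa U c w + e' := by
    rw [Filter.eventually_all_finset]
    intro w hw
    exact ar_ev hAR hU hb c d hd hw he'0
  filter_upwards [h1, self_mem_nhdsWithin] with t ht ht0
  have ht0' : (0 : ℝ) < t := ht0
  have hP := H21.pl_isCompact hb (fun w => c w + t * d w)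
  have hsub : Pl U c ⊆ (Pl U fun w => c w + t * d w) := by
    intro x hx w hw
    have h2 : inner ℝ x w ≤ c w := hx w hw
    have h3 : 0 ≤ t * d w := mul_nonneg ht0'.le (hd w hw)
    show inner ℝ x w ≤ c w + t * d w
    linarith
  have hPt : MeasurableSet (Pl U c) := (H21.pl_isClosed U _).measurableSet
  have hfin : volume (Pl U fun w => c w + t * d w) ≠ ⊤ := hP.measure_lt_top.ne
  have hcov : (Pl U fun w => c w + t * d w) \ Pl U c ⊆
      ⋃ w ∈ U, {x | x ∈ Su U c d w t ∧ c w ≤ inner ℝ x w ∧ inner ℝ x w ≤ c w + t * d w} := by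
    rintro x ⟨hx, hx'⟩
    have h5 : ∃ w ∈ U, ¬ inner ℝ x w ≤ c w := by
      by_contra hcon
      push Not at hcon
      exact hx' hcon
    obtain ⟨w, hw, h6⟩ := h5
    push Not at h6
    rw [mem_iUnion₂]
    exact ⟨w, hw, ⟨hx, h6.le⟩, h6.le, hx w hw⟩
  have hfinw : ∀ w, volume {x | x ∈ Su U c d w t ∧ c w ≤ inner ℝ x w ∧
      inner ℝ x w ≤ c w + t * d w} ≠ ⊤ := by
    intro w
    refine ne_top_of_le_ne_top hfin (measure_mono ?_)
    rintro x ⟨h7, _⟩
    exact h7.1
  have hv : vl (Pl U fun w => c w + t * d w) - vl (Pl U c) ≤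
      ∑ w ∈ U, vl {x | x ∈ Su U c d w t ∧ c w ≤ inner ℝ x w ∧
        inner ℝ x w ≤ c w + t * d w} := by
    have h8 : vl (Pl U fun w => c w + t * d w) - vl (Pl U c) =
        (volume ((Pl U fun w => c w + t * d w) \ Pl U c)).toReal := by
      unfold vl
      rw [measure_diff hsub hPt.nullMeasurableSet (ne_top_of_le_ne_top hfin (measure_mono hsub)),
        ENNReal.toReal_sub_of_le (measure_mono hsub) hfin]
    rw [h8]
    unfold vl
    rw [← ENNReal.toReal_sum (fun w _ => hfinw w)]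
    refine ENNReal.toReal_mono ?_ ?_
    · exact ENNReal.sum_ne_top.2 fun w _ => hfinw w
    · exact (measure_mono hcov).trans (measure_biUnion_finset_le _ _)
  refine hv.trans ?_
  have hw1 : ∀ w ∈ U, vl {x | x ∈ Su U c d w t ∧ c w ≤ inner ℝ x w ∧
      inner ℝ x w ≤ c w + t * d w} ≤ t * (fa U c w * d w + e' * d w) := by
    intro w hw
    obtain ⟨h9, _, _, _⟩ := hAR n w (hU w hw)
    have h10 : 0 ≤ t * d w := mul_nonneg ht0'.le (hd w hw)
    have h11 := h9 (Su U c d w t) (su_isCompact hb c d w t) (c w) (c w + t * d w) (by linarith)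
    refine h11.trans ?_
    have h12 : (c w + t * d w - c w) * ar w (Su U c d w t) ≤
        (t * d w) * (fa U c w + e') := by
      have h13 : c w + t * d w - c w = t * d w := by ring
      rw [h13]
      exact mul_le_mul_of_nonneg_left (ht w hw) h10
    refine h12.trans (le_of_eq ?_)
    ring
  refine (Finset.sum_le_sum hw1).trans ?_
  rw [← Finset.mul_sum]
  refine mul_le_mul_of_nonneg_left ?_ ht0'.le
  rw [Finset.sum_add_distrib, ← Finset.mul_sum]
  have h14 : e' * D ≤ e := by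
    rw [he', div_mul_eq_mul_div, div_le_iff₀ (by positivity)]
    nlinarith
  linarith

/-- The conclusion from the two bounds. -/
theorem der_of {n : ℕ} {U : Finset (E n)} (c d : E n → ℝ)
    (hu : ∀ e : ℝ, 0 < e → ∀ᶠ t : ℝ in 𝓝[>] 0,
      vl (Pl U fun w => c w + t * d w) - vl (Pl U c) ≤ t * (∑ w ∈ U, fa U c w * d w + e))
    (hl : ∀ e : ℝ, 0 < e → ∀ᶠ t : ℝ in 𝓝[>] 0,
      vl (Pl U c) + t * (∑ w ∈ U, fa U c w * d w - e) ≤ vl (Pl U fun w => c w + t * d w)) :
    Tendsto (fun t : ℝ => (vl (Pl U fun w => c w + t * d w) - vl (Pl U c)) / t) (𝓝[>] 0)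
      (𝓝 (∑ w ∈ U, fa U c w * d w)) := by
  rw [Metric.tendsto_nhds]
  intro e he
  filter_upwards [hu (e / 2) (by positivity), hl (e / 2) (by positivity),
    self_mem_nhdsWithin] with t h1 h2 h3
  have h3' : (0 : ℝ) < t := h3
  rw [Real.dist_eq, abs_lt]
  constructor
  · have h4 : ∑ w ∈ U, fa U c w * d w - e / 2 ≤
        (vl (Pl U fun w => c w + t * d w) - vl (Pl U c)) / t := by
      rw [le_div_iff₀ h3']
      linarith
    linarith
  · have h5 : (vl (Pl U fun w => c w + t * d w) - vl (Pl U c)) / t ≤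
        ∑ w ∈ U, fa U c w * d w + e / 2 := by
      rw [div_le_iff₀ h3']
      linarith
    linarith

end PV3.H27
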